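import Mathlib
import Pool.Agent.Lib.MP_d90615_co.Cycle
import Pool.Agent.Lib.MP_d90615_co.Mg.G002

/-!
Weighted forests of a multigraph in terms of the total weights of the pairs of vertices.
-/

set_option autoImplicit false
set_option linter.unusedSectionVars false

namespace Pool.Agent.PW

open Finset
open Pool.Agent.Lib.MP_d90615_co (HasCycle Forest forest_iff forest_insert)

variable {V E : Type*} [DecidableEq V] [DecidableEq E]

theorem mconn_iff (ends : E → Sym2 V) (F : Finset E) (u v : V) :
    Pool.Agent.Lib.MP_d90615_co.Conn ends F u v ↔ Conn (F.image ends) u v := by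
  constructor
  · intro h
    induction h with
    | refl => exact SimpleGraph.Reachable.refl _
    | @tail x y _ hxy ih =>
      obtain ⟨e, he, h2⟩ := hxy
      refine SimpleGraph.Reachable.trans ih (conn_of_mem ?_)
      rw [← h2]
      exact Finset.mem_image_of_mem ends he
  · intro h
    unfold Conn at h
    rw [SimpleGraph.reachable_iff_reflTransGen] at h
    refine Relation.ReflTransGen.mono ?_ _ _ h
    intro a b hab
    rw [SimpleGraph.fromEdgeSet_adj, Finset.mem_coe, Finset.mem_image] at hab
    exact hab.1

theorem forest_iff_acyc (ends : E → Sym2 V) (F : Finset E) :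
    Forest ends F ↔ Set.InjOn ends (F : Set E) ∧ Acyc (F.image ends) := by
  induction F using Finset.induction_on with
  | empty =>
    refine ⟨fun _ => ⟨by simp, ?_⟩, fun _ => ?_⟩
    · rw [Finset.image_empty]
      exact acyc_empty
    · intro e he
      simp at he
  | insert e F he ih =>
    obtain ⟨u, v, huv⟩ : ∃ u v, ends e = s(u, v) := by
      induction h : ends e using Sym2.ind with
      | _ u v => exact ⟨u, v, rfl⟩
    rw [forest_insert huv he, ih, mconn_iff, Finset.coe_insert,
      Set.injOn_insert (by simpa using he), Finset.image_insert, huv]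
    constructor
    · rintro ⟨⟨h1, h2⟩, h3⟩
      have h4 : s(u, v) ∉ F.image ends := fun h => h3 (conn_of_mem h)
      refine ⟨⟨h1, ?_⟩, (acyc_insert h4).mpr ⟨h2, h3⟩⟩
      rw [← Finset.coe_image]
      exact h4
    · rintro ⟨⟨h1, h2⟩, h3⟩
      have h4 : s(u, v) ∉ F.image ends := by
        rw [← Finset.mem_coe, Finset.coe_image]
        exact h2
      rw [acyc_insert h4] at h3
      exact ⟨⟨h1, h3.1⟩, h3.2⟩

variable [Fintype V] [Fintype E]

open Classical in
/-- Sum of the weights of all forests. -/
noncomputable def FS (ends : E → Sym2 V) (w : E → ℝ) : ℝ :=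
  ∑ F ∈ (univ : Finset (Finset E)).filter (fun F : Finset E => Forest ends F), ∏ g ∈ F, w g

/-- Total weight of the edges with given ends. -/
noncomputable def tot (ends : E → Sym2 V) (w : E → ℝ) : Sym2 V → ℝ :=
  fun e' => ∑ e ∈ (univ : Finset E).filter (fun e => ends e = e'), w e

open Classical in
theorem FS_eq (ends : E → Sym2 V) (w : E → ℝ) : FS ends w = Z (tot ends w) := by
  unfold FS
  have h1 : (univ : Finset (Finset E)).filter (fun F : Finset E => Forest ends F) =
      (univ : Finset (Finset E)).filter
        (fun F : Finset E => Set.InjOn ends (F : Set E) ∧ Acyc (F.image ends)) := by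
    ext F
    simp only [mem_filter, mem_univ, true_and]
    exact forest_iff_acyc ends F
  rw [h1, fiber_sum ends w Acyc]
  rfl

theorem tot_update (ends : E → Sym2 V) (w : E → ℝ) (e : E) (t : ℝ) :
    tot ends (Function.update w e t) =
      Function.update (tot ends w) (ends e) (tot ends w (ends e) - (w e - t)) := by
  funext e'
  unfold tot
  by_cases h : e' = ends e
  · subst h
    rw [Function.update_self]
    have hmem : e ∈ (univ : Finset E).filter (fun g => ends g = ends e) := by simp
    rw [← Finset.add_sum_erase _ _ hmem, ← Finset.add_sum_erase _ w hmem, Function.update_self]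
    have : ∑ x ∈ ((univ : Finset E).filter (fun g => ends g = ends e)).erase e,
        Function.update w e t x =
        ∑ x ∈ ((univ : Finset E).filter (fun g => ends g = ends e)).erase e, w x := by
      refine Finset.sum_congr rfl fun g hg => ?_
      rw [Function.update_of_ne (Finset.ne_of_mem_erase hg)]
    rw [this]
    ring
  · rw [Function.update_of_ne h]
    refine Finset.sum_congr rfl fun g hg => ?_
    rw [Function.update_of_ne]
    rintro rfl
    simp only [mem_filter, mem_univ, true_and] at hg
    exact h hg.symm

theorem FS_diff (ends : E → Sym2 V) (w : E → ℝ) (e : E) :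
    FS ends w - FS ends (Function.update w e 0) = w e * N (tot ends w) (ends e) := by
  rw [FS_eq, FS_eq, tot_update, Z_split (tot ends w) (ends e) (tot ends w (ends e) - (w e - 0))]
  ring

open Classical in
/-- Sum of the weights of the forests that contain `e`. -/
theorem sum_mem (ends : E → Sym2 V) (w : E → ℝ) (e : E) :
    ∑ F ∈ (univ : Finset (Finset E)).filter (fun F : Finset E => Forest ends F ∧ e ∈ F),
      ∏ g ∈ F, w g = w e * N (tot ends w) (ends e) := by
  rw [← FS_diff]
  unfold FS
  rw [Finset.sum_filter, Finset.sum_filter, Finset.sum_filter, ← Finset.sum_sub_distrib]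
  refine Finset.sum_congr rfl fun F _ => ?_
  by_cases h1 : Forest ends F
  · by_cases h2 : e ∈ F
    · have h3 : ∏ g ∈ F, Function.update w e 0 g = 0 :=
        Finset.prod_eq_zero h2 (Function.update_self _ _ _)
      simp [h1, h2, h3]
    · have h3 : ∏ g ∈ F, Function.update w e 0 g = ∏ g ∈ F, w g := by
        refine Finset.prod_congr rfl fun g hg => ?_
        rw [Function.update_of_ne]
        rintro rfl
        exact h2 hg
      simp [h1, h2, h3]
  · simp [h1]

open Classical in
/-- Sum of the weights of the forests that contain `e` and `f`. -/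
theorem sum_mem_mem (ends : E → Sym2 V) (w : E → ℝ) {e f : E} (hef : e ≠ f) :
    ∑ F ∈ (univ : Finset (Finset E)).filter
        (fun F : Finset E => Forest ends F ∧ (e ∈ F ∧ f ∈ F)), ∏ g ∈ F, w g =
      if ends e = ends f then 0
      else w e * (w f * N2 (tot ends w) (ends e) (ends f)) := by
  have key : ∑ F ∈ (univ : Finset (Finset E)).filter
        (fun F : Finset E => Forest ends F ∧ (e ∈ F ∧ f ∈ F)), ∏ g ∈ F, w g =
      (∑ F ∈ (univ : Finset (Finset E)).filter (fun F : Finset E => Forest ends F ∧ e ∈ F),
        ∏ g ∈ F, w g) -
      ∑ F ∈ (univ : Finset (Finset E)).filter (fun F : Finset E => Forest ends F ∧ e ∈ F),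
        ∏ g ∈ F, Function.update w f 0 g := by
    rw [Finset.sum_filter, Finset.sum_filter, Finset.sum_filter, ← Finset.sum_sub_distrib]
    refine Finset.sum_congr rfl fun F _ => ?_
    by_cases h1 : Forest ends F
    · by_cases h2 : f ∈ F
      · have h3 : ∏ g ∈ F, Function.update w f 0 g = 0 :=
          Finset.prod_eq_zero h2 (Function.update_self _ _ _)
        simp [h1, h2, h3]
      · have h3 : ∏ g ∈ F, Function.update w f 0 g = ∏ g ∈ F, w g := by
          refine Finset.prod_congr rfl fun g hg => ?_
          rw [Function.update_of_ne]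
          rintro rfl
          exact h2 hg
        simp [h1, h2, h3]
    · simp [h1]
  rw [key, sum_mem, sum_mem, Function.update_of_ne hef, tot_update]
  split_ifs with h
  · have : N (Function.update (tot ends w) (ends f) (tot ends w (ends f) - (w f - 0))) (ends e) =
        N (tot ends w) (ends e) :=
      N_congr fun g _ hg => by rw [Function.update_of_ne (by rw [← h]; exact hg)]
    rw [this]
    ring
  · rw [N_split (tot ends w) (e := ends e) (f := ends f) (fun h' => h h'.symm)
      (tot ends w (ends f) - (w f - 0))]
    ring

end Pool.Agent.PW
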