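import Mathlib
import Pool.Agent.Lib.MP_d90615_co.Mg.G002

/-!
Negative correlation for product weights.
-/

set_option autoImplicit false
set_option linter.unusedSectionVars false

namespace Pool.Agent.PW

open Finset

variable {V : Type*} [Fintype V] [DecidableEq V]

theorem P3 (y : V → ℝ) (X : ℝ) {b c d : V} {R : Finset V} (hb : b ∉ insert c (insert d R))
    (hc : c ∉ insert d R) (hd : d ∉ R) :
    P y X (insert b (insert c (insert d R))) = P y X R +
      (X - ∑ i ∈ R, y i - y d) * y d * M y X 0 R +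
      (X - ∑ i ∈ R, y i - y d - y c) * y c * (M y X 0 R + y d * M y X 1 R) +
      (X - ∑ i ∈ R, y i - y d - y c - y b) * y b *
        (M y X 0 R + (y c + y d) * M y X 1 R + y c * y d * M y X 2 R) := by
  rw [P_insert y X hb, P_insert y X hc, P_insert y X hd, M_insert y X 0 hc, M_insert y X 0 hd,
    M_insert y X (0 + 1) hd, Finset.sum_insert hc, Finset.sum_insert hd]
  ring

theorem P2 (y : V → ℝ) (X : ℝ) {b c : V} {R : Finset V} (hb : b ∉ insert c R) (hc : c ∉ R) :
    P y X (insert b (insert c R)) = P y X R +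
      (X - ∑ i ∈ R, y i - y c) * y c * M y X 0 R +
      (X - ∑ i ∈ R, y i - y c - y b) * y b * (M y X 0 R + y c * M y X 1 R) := by
  rw [P_insert y X hb, P_insert y X hc, M_insert y X 0 hc, Finset.sum_insert hc]
  ring

theorem ray_disjoint {a b c d : V} (hab : a ≠ b) (hac : a ≠ c) (had : a ≠ d) (hbc : b ≠ c)
    (hbd : b ≠ d) (hcd : c ≠ d) (x : V → ℝ) (hx : ∀ v, 0 ≤ x v) :
    0 ≤ Ray (pw x) s(a, b) s(c, d) := by
  have hcc : ct a b c = c := by unfold ct; rw [if_neg hbc.symm]
  have hdd : ct a b d = d := by unfold ct; rw [if_neg hbd.symm]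
  have hne : s(c, d) ≠ s(a, b) := by
    intro h
    rw [Sym2.eq_iff] at h
    rcases h with h | h
    · exact hac h.1.symm
    · exact had h.2.symm
  unfold Ray
  rw [N_pw hab, N_pw hcd, N2_pw hab (by rw [hcc, hdd]; exact hcd) x hne, hcc, hdd,
    Z_pw _ a, Z_pw _ a, Z_pw _ a, Z_pw _ a, sum_mv (mv x a b) hcd, sum_mv x hab, sum_mv x hcd]
  set X := ∑ v, x v with hXdef
  set R : Finset V := (((univ.erase a).erase b).erase c).erase d with hR
  have hdR : d ∉ R := Finset.notMem_erase _ _
  have hcR : c ∉ insert d R := by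
    rw [hR, Finset.insert_erase (by simp [had.symm, hbd.symm, hcd.symm])]
    exact Finset.notMem_erase _ _
  have hbR : b ∉ insert c (insert d R) := by
    rw [hR, Finset.insert_erase (by simp [had.symm, hbd.symm, hcd.symm]),
      Finset.insert_erase (by simp [hac.symm, hbc.symm])]
    exact Finset.notMem_erase _ _
  have hA : univ.erase a = insert b (insert c (insert d R)) := by
    rw [hR, Finset.insert_erase (by simp [had.symm, hbd.symm, hcd.symm]),
      Finset.insert_erase (by simp [hac.symm, hbc.symm]), Finset.insert_erase (by simp [hab.symm])]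
  have hRm : ∀ i ∈ R, i ≠ a ∧ i ≠ b ∧ i ≠ c ∧ i ≠ d := by
    intro i hi
    rw [hR] at hi
    simp only [Finset.mem_erase, Finset.mem_univ, and_true] at hi
    exact ⟨hi.2.2.2, hi.2.2.1, hi.2.1, hi.1⟩
  have hX : X - ∑ i ∈ R, x i = x a + x b + x c + x d := by
    have h1 := Finset.add_sum_erase univ x (Finset.mem_univ a)
    rw [hA, Finset.sum_insert hbR, Finset.sum_insert hcR, Finset.sum_insert hdR] at h1
    linarith
  -- the three other mass functions
  have e1 : ∀ i ∈ R, mv x a b i = x i := by
    intro i hi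
    obtain ⟨h1, h2, _, _⟩ := hRm i hi
    unfold mv; rw [if_neg h2, if_neg h1]
  have e2 : ∀ i ∈ R, mv x c d i = x i := by
    intro i hi
    obtain ⟨_, _, h1, h2⟩ := hRm i hi
    unfold mv; rw [if_neg h2, if_neg h1]
  have e3 : ∀ i ∈ R, mv (mv x a b) c d i = x i := by
    intro i hi
    obtain ⟨_, _, h1, h2⟩ := hRm i hi
    have := e1 i hi
    rw [← this]
    conv_lhs => unfold mv
    rw [if_neg h2, if_neg h1]
    rfl
  rw [hA, P3 _ X hbR hcR hdR, P3 _ X hbR hcR hdR, P3 _ X hbR hcR hdR, P3 _ X hbR hcR hdR]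
  rw [P_congr X e1, P_congr X e2, P_congr X e3, M_congr X 0 e1, M_congr X 0 e2, M_congr X 0 e3,
    M_congr X 1 e1, M_congr X 1 e2, M_congr X 1 e3, M_congr X 2 e1, M_congr X 2 e2,
    M_congr X 2 e3, Finset.sum_congr rfl e1, Finset.sum_congr rfl e2, Finset.sum_congr rfl e3, hX]
  have v1 : mv x a b b = 0 := by unfold mv; rw [if_pos rfl]
  have v2 : mv x a b c = x c := by unfold mv; rw [if_neg hbc.symm, if_neg hac.symm]
  have v3 : mv x a b d = x d := by unfold mv; rw [if_neg hbd.symm, if_neg had.symm]
  have v4 : mv x c d b = x b := by unfold mv; rw [if_neg hbd, if_neg hbc]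
  have v5 : mv x c d c = x c + x d := by unfold mv; rw [if_neg hcd, if_pos rfl]
  have v6 : mv x c d d = 0 := by unfold mv; rw [if_pos rfl]
  have v7 : mv (mv x a b) c d b = 0 := by
    conv_lhs => unfold mv
    rw [if_neg hbd, if_neg hbc]
    exact v1
  have v8 : mv (mv x a b) c d c = x c + x d := by
    rw [← v2, ← v3]
    conv_lhs => unfold mv
    rw [if_neg hcd, if_pos rfl]
    rfl
  have v9 : mv (mv x a b) c d d = 0 := by
    conv_lhs => unfold mv
    rw [if_pos rfl]
  rw [v1, v2, v3, v4, v5, v6, v7, v8, v9]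
  have hxR : ∀ i ∈ R, 0 ≤ x i := fun i _ => hx i
  have ha := hx a
  have hb := hx b
  have hc := hx c
  have hd := hx d
  rcases (ha.lt_or_eq) with ha0 | ha0
  · have hXlt : ∑ i ∈ R, x i < X := by linarith
    have hI := ineqA x X R hxR hXlt.le
    have hP := one_le_P x X R hxR hXlt.le
    have hB := ineqB x X R
    have hC := ineqC x X R hxR hXlt
    rw [hX] at hI hC
    set T := M x X 0 R
    set L := M x X 1 R
    set S := M x X 2 R
    set Q := P x X R
    have hT : 0 < T := by linarith [hI.1]
    have hL : 0 ≤ L := by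
      have : 0 ≤ (x a + x b + x c + x d) * T := by positivity
      linarith [hI.2]
    have key := ineq_disjoint (c := x a + x b + x c + x d) hT hL (add_nonneg ha hb)
      (add_nonneg hc hd) (by ring) (by linarith) hB hC
    have h1 : 0 ≤ x a * x b * x c * x d *
        ((T + (x a + x b) * L) * (T + (x c + x d) * L) - S * (Q + (x a + x b) * (x c + x d) * T)) :=
      mul_nonneg (by positivity) (by linarith)
    refine h1.trans (le_of_eq ?_)
    ring
  · rw [← ha0]
    apply le_of_eq
    ring

theorem ray_adjacent {a b c : V} (hab : a ≠ b) (hac : a ≠ c) (hbc : b ≠ c) (x : V → ℝ)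
    (hx : ∀ v, 0 ≤ x v) : 0 ≤ Ray (pw x) s(a, b) s(a, c) := by
  have haa : ct a b a = a := by unfold ct; rw [if_neg hab]
  have hcc : ct a b c = c := by unfold ct; rw [if_neg hbc.symm]
  have hne : s(a, c) ≠ s(a, b) := by
    intro h
    rw [Sym2.eq_iff] at h
    rcases h with h | h
    · exact hbc h.2.symm
    · exact hab h.1
  unfold Ray
  rw [N_pw hab, N_pw hac, N2_pw hab (by rw [haa, hcc]; exact hac) x hne, haa, hcc,
    Z_pw _ a, Z_pw _ a, Z_pw _ a, Z_pw _ a, sum_mv (mv x a b) hac, sum_mv x hab, sum_mv x hac]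
  set X := ∑ v, x v with hXdef
  set R : Finset V := ((univ.erase a).erase b).erase c with hR
  have hcR : c ∉ R := Finset.notMem_erase _ _
  have hbR : b ∉ insert c R := by
    rw [hR, Finset.insert_erase (by simp [hac.symm, hbc.symm])]
    exact Finset.notMem_erase _ _
  have hA : univ.erase a = insert b (insert c R) := by
    rw [hR, Finset.insert_erase (by simp [hac.symm, hbc.symm]),
      Finset.insert_erase (by simp [hab.symm])]
  have hRm : ∀ i ∈ R, i ≠ a ∧ i ≠ b ∧ i ≠ c := by
    intro i hi
    rw [hR] at hi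
    simp only [Finset.mem_erase, Finset.mem_univ, and_true] at hi
    exact ⟨hi.2.2, hi.2.1, hi.1⟩
  have hX : X - ∑ i ∈ R, x i = x a + x b + x c := by
    have h1 := Finset.add_sum_erase univ x (Finset.mem_univ a)
    rw [hA, Finset.sum_insert hbR, Finset.sum_insert hcR] at h1
    linarith
  have e1 : ∀ i ∈ R, mv x a b i = x i := by
    intro i hi
    obtain ⟨h1, h2, _⟩ := hRm i hi
    unfold mv; rw [if_neg h2, if_neg h1]
  have e2 : ∀ i ∈ R, mv x a c i = x i := by
    intro i hi
    obtain ⟨h1, _, h2⟩ := hRm i hi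
    unfold mv; rw [if_neg h2, if_neg h1]
  have e3 : ∀ i ∈ R, mv (mv x a b) a c i = x i := by
    intro i hi
    obtain ⟨h1, _, h2⟩ := hRm i hi
    have := e1 i hi
    rw [← this]
    conv_lhs => unfold mv
    rw [if_neg h2, if_neg h1]
    rfl
  rw [hA, P2 _ X hbR hcR, P2 _ X hbR hcR, P2 _ X hbR hcR, P2 _ X hbR hcR]
  rw [P_congr X e1, P_congr X e2, P_congr X e3, M_congr X 0 e1, M_congr X 0 e2, M_congr X 0 e3,
    M_congr X 1 e1, M_congr X 1 e2, M_congr X 1 e3, Finset.sum_congr rfl e1,
    Finset.sum_congr rfl e2, Finset.sum_congr rfl e3, hX]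
  have v1 : mv x a b b = 0 := by unfold mv; rw [if_pos rfl]
  have v2 : mv x a b c = x c := by unfold mv; rw [if_neg hbc.symm, if_neg hac.symm]
  have v4 : mv x a c b = x b := by unfold mv; rw [if_neg hbc, if_neg hab.symm]
  have v6 : mv x a c c = 0 := by unfold mv; rw [if_pos rfl]
  have v7 : mv (mv x a b) a c b = 0 := by
    conv_lhs => unfold mv
    rw [if_neg hbc, if_neg hab.symm]
    exact v1
  have v9 : mv (mv x a b) a c c = 0 := by
    conv_lhs => unfold mv
    rw [if_pos rfl]
  rw [v1, v2, v4, v6, v7, v9]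
  have hxR : ∀ i ∈ R, 0 ≤ x i := fun i _ => hx i
  have ha := hx a
  have hb := hx b
  have hc := hx c
  rcases (hb.lt_or_eq) with hb0 | hb0
  · have hXlt : ∑ i ∈ R, x i < X := by linarith
    have hI := ineqA x X R hxR hXlt.le
    have hP := one_le_P x X R hxR hXlt.le
    have hC := ineqC x X R hxR hXlt
    rw [hX] at hI hC
    set T := M x X 0 R
    set L := M x X 1 R
    set Q := P x X R
    have hT : 0 < T := by linarith [hI.1]
    have hL : 0 < L := by
      have : 0 < (x a + x b + x c) * T := mul_pos (by linarith) hT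
      linarith [hI.2]
    have key := ineq_adjacent (c := x a + x b + x c) hT hL ha hb hc rfl (by linarith) hC
    have h1 : 0 ≤ x b * x c * ((x a + x b) * (x a + x c) * T ^ 2 - Q * (x a * L - T)) :=
      mul_nonneg (by positivity) (by linarith)
    refine h1.trans (le_of_eq ?_)
    ring
  · rw [← hb0]
    apply le_of_eq
    ring

theorem ray_nonneg (x : V → ℝ) (hx : ∀ v, 0 ≤ x v) {e f : Sym2 V} (he : ¬ e.IsDiag)
    (hf : ¬ f.IsDiag) (hef : e ≠ f) : 0 ≤ Ray (pw x) e f := by
  induction e using Sym2.ind with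
  | _ a b =>
    induction f using Sym2.ind with
    | _ c d =>
      rw [Sym2.mk_isDiag_iff] at he hf
      by_cases h1 : a = c
      · subst h1
        have hbd : b ≠ d := fun h => hef (by rw [h])
        exact ray_adjacent he hf hbd x hx
      · by_cases h2 : a = d
        · subst h2
          have hbc : b ≠ c := fun h => hef (by rw [h, Sym2.eq_swap])
          rw [show s(c, a) = s(a, c) from Sym2.eq_swap]
          exact ray_adjacent he (Ne.symm hf) hbc x hx
        · by_cases h3 : b = c
          · subst h3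
            rw [show s(a, b) = s(b, a) from Sym2.eq_swap]
            exact ray_adjacent (Ne.symm he) hf (by rintro rfl; exact hef Sym2.eq_swap) x hx
          · by_cases h4 : b = d
            · subst h4
              rw [show s(a, b) = s(b, a) from Sym2.eq_swap, show s(c, b) = s(b, c) from Sym2.eq_swap]
              exact ray_adjacent (Ne.symm he) (Ne.symm hf) h1 x hx
            · exact ray_disjoint he h1 h2 h3 h4 hf x hx

end Pool.Agent.PW
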